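import Pool.Agent.helper31.GPR.Spec

/-!
# Geometric points of binary Steiner systems, row LOC: the local facts
-/

set_option autoImplicit false

namespace Pool.Agent.GPR

open Pool.Agent.helper25.QST

theorem LOC (hGPT : GPT_stmt) (hSYM : SYM_stmt) (hKER : KER_stmt) : LOC_stmt := by
  intro V _ _ _ 𝓑 h𝓑
  classical
  have h1 : ∀ a : V, ∃ J : V →ₗ[ZMod 2] V, (a ≠ 0 ∧ Geometric 𝓑 a) → Gp 𝓑 a J := by
    intro a
    by_cases ha : a ≠ 0 ∧ Geometric 𝓑 a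
    · obtain ⟨J, hJ⟩ := hGPT V 𝓑 h𝓑 a ha.1 ha.2
      exact ⟨J, fun _ => hJ⟩
    · exact ⟨0, fun h => absurd h ha⟩
  choose J hJ using h1
  refine ⟨J, ⟨fun h => h.1 rfl, fun x hx => (hJ x hx).self, fun x hx => (hJ x hx).quad, ?_, ?_⟩⟩
  · intro x hx y hy
    exact hSYM V 𝓑 h𝓑 x y (J x) (J y) (hJ x hx) (hJ y hy)
  · intro x hx y hy hxy e
    exact hKER V 𝓑 h𝓑 x y (J x) (J y) (hJ x hx) (hJ y hy) hxy e

end Pool.Agent.GPR
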